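import Pool.Agent.H34.VM.Base

set_option autoImplicit false

namespace H59.VM

open Set H34.VM

lemma closure_compl_top {G : Type} [Group G] (L : Subgroup G) (hL : L ≠ ⊤) :
    Subgroup.closure ((L : Set G)ᶜ) = ⊤ := by
  rw [eq_top_iff]
  intro x _
  by_cases hx : x ∈ L
  · obtain ⟨y, hy⟩ : ∃ y, y ∉ L := by
      by_contra h
      push Not at h
      exact hL ((Subgroup.eq_top_iff' L).2 h)
    have hxy : x * y ∉ L := fun h => hy ((Subgroup.mul_mem_cancel_left L hx).1 h)
    have h1 : x * y ∈ Subgroup.closure ((L : Set G)ᶜ) := Subgroup.subset_closure hxy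
    have h2 : y ∈ Subgroup.closure ((L : Set G)ᶜ) := Subgroup.subset_closure hy
    have := Subgroup.mul_mem _ h1 (Subgroup.inv_mem _ h2)
    simpa using this
  · exact Subgroup.subset_closure hx

lemma ncard_coe {G : Type} [Group G] (K : Subgroup G) : (K : Set G).ncard = Nat.card K := rfl

theorem t_E1 : S_odd := by
  intro G _ _ hodd hnp hn1
  have hpos : 0 < Nat.card G := Nat.card_pos
  have hq : (Nat.card G).minFac.Prime := Nat.minFac_prime hn1
  haveI := Fact.mk hq
  obtain ⟨x, hx⟩ := exists_prime_orderOf_dvd_card' (G := G) (Nat.card G).minFac (Nat.minFac_dvd _)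
  have hcard : Nat.card (Subgroup.zpowers x) = (Nat.card G).minFac := by
    rw [Nat.card_zpowers, hx]
  have hsq := Nat.minFac_sq_le_self hpos hnp
  -- index at least three
  have hidx : ∀ K : Subgroup G, K ≠ ⊤ → 3 * Nat.card K ≤ Nat.card G := by
    intro K hK
    have h1 : K.index ≠ 1 := fun h => hK (Subgroup.index_eq_one.1 h)
    have h2 := K.card_mul_index
    have h3 : Odd K.index := Odd.of_dvd_nat hodd ⟨Nat.card K, by rw [mul_comm, h2]⟩
    have h4 : 3 ≤ K.index := by
      rcases h3 with ⟨m, hm⟩
      omega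
    nlinarith
  have hLtop : Subgroup.zpowers x ≠ ⊤ := by
    intro h
    rw [h, Subgroup.card_top] at hcard
    exact hnp (hcard ▸ hq)
  refine ⟨Subgroup.zpowers x, by rw [hcard]; exact hq, by rw [hcard]; exact hsq,
    ((Subgroup.zpowers x : Subgroup G) : Set G)ᶜ, ?_, closure_compl_top _ hLtop, ?_, ?_⟩
  · intro u hu
    right
    intro h
    apply hu
    -- `u` is a power of `u ^ 2`
    have ho : Odd (orderOf u) := Odd.of_dvd_nat hodd (orderOf_dvd_natCard u)
    obtain ⟨m, hm⟩ := ho
    have : u = (u ^ 2) ^ (m + 1) := by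
      rw [← pow_mul]
      have : 2 * (m + 1) = orderOf u + 1 := by omega
      rw [this, pow_succ, pow_orderOf_eq_one, one_mul]
    rw [SetLike.mem_coe, this]
    exact Subgroup.pow_mem _ h _
  · have h1 := ncard_add_ncard_compl ((Subgroup.zpowers x : Subgroup G) : Set G)
    rw [ncard_coe] at h1
    have h2 := hidx _ hLtop
    omega
  · intro K
    by_cases hK : K = ⊤
    · left; rw [hK]; exact fun _ _ => trivial
    · right
      have h1 := ncard_add_ncard_compl ((Subgroup.zpowers x : Subgroup G) : Set G)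
      rw [ncard_coe] at h1
      have h2 := hidx _ hLtop
      have h3 := hidx _ hK
      have h4 : (((Subgroup.zpowers x : Subgroup G) : Set G)ᶜ).ncard ≤
          ((((Subgroup.zpowers x : Subgroup G) : Set G)ᶜ) \ (K : Set G)).ncard + (K : Set G).ncard := by
        refine (ncard_le_ncard ?_ (toFinite _)).trans (ncard_union_le _ _)
        intro y hy
        by_cases h : y ∈ K
        · exact Or.inr h
        · exact Or.inl ⟨hy, h⟩
      rw [ncard_coe] at h4
      omega

theorem t_E2 (hU : S_union) : S_noncentral := by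
  intro G _ _ h hG h1 h2 hnc
  have hord : orderOf h = 2 := orderOf_eq_prime h2 h1
  have hcard : Nat.card (Subgroup.zpowers h) = 2 := by rw [Nat.card_zpowers, hord]
  set C : Subgroup G := Subgroup.centralizer {h} with hC
  have hCmem : ∀ g : G, g ∈ C ↔ g * h = h * g := by
    intro g
    rw [hC, Subgroup.mem_centralizer_singleton_iff]
  have hCtop : C ≠ ⊤ := by
    intro hh
    obtain ⟨g, hg⟩ := hnc
    exact hg ((hCmem g).1 (hh ▸ Subgroup.mem_top g))
  have hU' := hU G C
  refine ⟨Subgroup.zpowers h, by rw [hcard]; exact Nat.prime_two, by rw [hcard]; omega,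
    (C : Set G)ᶜ, ?_, closure_compl_top _ hCtop, ?_, ?_⟩
  · intro u hu
    by_contra hh
    push Not at hh
    obtain ⟨hu1, hu2⟩ := hh
    rw [Subgroup.mem_zpowers_iff] at hu2
    obtain ⟨k, hk⟩ := hu2
    apply hu
    rw [SetLike.mem_coe, hCmem]
    rcases Int.even_or_odd' k with ⟨m, hm | hm⟩
    · exfalso
      apply hu1
      rw [← hk, hm, zpow_mul]
      have : h ^ (2 : ℤ) = 1 := by exact_mod_cast h2
      rw [this, one_zpow]
    · have : h = u ^ 2 := by
        rw [← hk, hm, zpow_add, zpow_mul]
        have : h ^ (2 : ℤ) = 1 := by exact_mod_cast h2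
        rw [this, one_zpow, one_mul, zpow_one]
      rw [this]
      group
  · have h3 := hU' C hCtop hCtop
    have h4 : {g : G | g ∉ C ∧ g ∉ C} = (C : Set G)ᶜ := by
      ext g; simp
    rw [h4] at h3
    omega
  · intro K
    by_cases hK : K = ⊤
    · left; rw [hK]; exact fun _ _ => trivial
    · right
      have h3 := hU' K hCtop hK
      have h4 : {g : G | g ∉ C ∧ g ∉ K} = (C : Set G)ᶜ \ (K : Set G) := by
        ext g; simp
      rw [h4] at h3
      omega

end H59.VM
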