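import Pool.Agent.H34.VM.Base

set_option autoImplicit false

namespace H59.VM

open Set H34.VM

/-- A finite abelian 2-group with at most one involution: few solutions of `x ^ (2 ^ j) = 1`. -/
lemma card_pow_le {H : Type} [CommGroup H] [Finite H] (z : H) (hz : ∀ g : H, g ^ 2 = 1 → g = 1 ∨ g = z)
    (j : ℕ) : {x : H | x ^ (2 ^ j) = 1}.ncard ≤ 2 ^ j := by
  induction j with
  | zero =>
    have : {x : H | x ^ (2 ^ 0) = 1} = {1} := by ext x; simp
    rw [this, ncard_singleton]; simp
  | succ j ih =>
    classical
    have hfin : ({x : H | x ^ (2 ^ (j + 1)) = 1}).Finite := toFinite _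
    have hfin' : ({x : H | x ^ (2 ^ j) = 1}).Finite := toFinite _
    rw [ncard_eq_toFinset_card _ hfin]
    rw [ncard_eq_toFinset_card _ hfin'] at ih
    have h := Finset.card_le_mul_card_image (f := fun x : H => x ^ 2) hfin.toFinset 2 ?_
    · refine h.trans ?_
      have e : 2 ^ (j + 1) = 2 * 2 ^ j := by ring
      refine le_trans (Nat.mul_le_mul_left 2 ?_) e.ge
      refine le_trans (Finset.card_le_card ?_) ih
      intro y hy
      rw [Finset.mem_image] at hy
      obtain ⟨x, hx, rfl⟩ := hy
      rw [Finite.mem_toFinset] at hx ⊢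
      change x ^ (2 ^ (j + 1)) = 1 at hx
      change (x ^ 2) ^ (2 ^ j) = 1
      rw [← pow_mul, ← pow_succ']
      exact hx
    · intro y hy
      rw [Finset.mem_image] at hy
      obtain ⟨x, hx, rfl⟩ := hy
      have hsub : hfin.toFinset.filter (fun w => w ^ 2 = x ^ 2) ⊆ {x, x * z} := by
        intro w hw
        rw [Finset.mem_filter] at hw
        have h1 : (x⁻¹ * w) ^ 2 = 1 := by
          rw [mul_pow, hw.2, inv_pow, inv_mul_cancel]
        rw [Finset.mem_insert, Finset.mem_singleton]
        rcases hz _ h1 with h | h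
        · left
          have := congrArg (fun t => x * t) h
          simpa using this
        · right
          have := congrArg (fun t => x * t) h
          simpa using this
      exact (Finset.card_le_card hsub).trans Finset.card_le_two

lemma isCyclic_of_unique {H : Type} [CommGroup H] [Finite H] (z : H)
    (hz : ∀ g : H, g ^ 2 = 1 → g = 1 ∨ g = z) (a : ℕ) (ha : Nat.card H = 2 ^ a) : IsCyclic H := by
  apply IsCyclic.of_exponent_eq_card
  have h1 : Monoid.exponent H ∣ 2 ^ a := by
    rw [← ha]; exact Group.exponent_dvd_nat_card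
  obtain ⟨j, hj, hje⟩ := (Nat.dvd_prime_pow Nat.prime_two).1 h1
  have h2 := card_pow_le z hz j
  have h3 : {x : H | x ^ (2 ^ j) = 1} = univ := by
    ext x
    simp only [mem_univ, iff_true]
    change x ^ (2 ^ j) = 1
    rw [← hje]
    exact Monoid.pow_exponent_eq_one x
  rw [h3, ncard_univ, ha] at h2
  rw [hje, ha]
  apply le_antisymm (Nat.pow_le_pow_right (by norm_num) hj) h2

theorem t_E5 : S_quat := by
  intro G _ _ z K hD hG ha
  obtain ⟨a, ha⟩ := ha
  obtain ⟨hz1, hz2, hzc, hzu, hidx, hout, hcomm⟩ := hD
  have ha3 : 3 ≤ a := by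
    by_contra h
    have : a ≤ 2 := by omega
    have := Nat.pow_le_pow_right (show 0 < 2 by norm_num) this
    omega
  -- `K` is cyclic
  let iK : CommGroup K := { (inferInstance : Group K) with
    mul_comm := fun x y => Subtype.ext (hcomm x x.2 y y.2) }
  have hcardK : Nat.card K = 2 ^ (a - 1) := by
    have h := K.card_mul_index
    rw [hidx, ha] at h
    have : 2 ^ a = 2 ^ (a - 1) * 2 := by
      rw [← pow_succ]; congr 1; omega
    omega
  have hzK : z ∈ K := by
    by_contra h
    exact hz1 ((hout z h).symm.trans hz2)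
  have hcyc : IsCyclic K := by
    refine isCyclic_of_unique (H := K) ⟨z, hzK⟩ ?_ (a - 1) hcardK
    intro g hg
    by_cases h : (g : G) = 1
    · left; exact Subtype.ext h
    · right
      refine Subtype.ext (hzu g h ?_)
      have := congrArg Subtype.val hg
      simpa using this
  obtain ⟨x, hx⟩ := hcyc.exists_generator
  set N : ℕ := 2 ^ (a - 2) with hN
  have hNpos : 0 < N := by positivity
  haveI : NeZero N := ⟨hNpos.ne'⟩
  haveI : NeZero (2 * N) := ⟨by omega⟩
  have h2N : 2 ^ (a - 1) = 2 * N := by
    rw [hN, ← pow_succ']; congr 1; omega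
  have hordx : orderOf (x : G) = 2 * N := by
    rw [Subgroup.orderOf_coe, orderOf_eq_card_of_forall_mem_zpowers hx, hcardK, h2N]
  have hxN : (x : G) ^ N = z := by
    apply hzu
    · intro h
      have := orderOf_dvd_of_pow_eq_one h
      rw [hordx] at this
      have := Nat.le_of_dvd hNpos this
      omega
    · rw [← pow_mul, mul_comm, ← hordx, pow_orderOf_eq_one]
  obtain ⟨g, hg⟩ : ∃ g : G, g ∉ K := by
    by_contra h
    push Not at h
    have : K = ⊤ := (Subgroup.eq_top_iff' K).2 h
    rw [this, Subgroup.index_top] at hidx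
    omega
  have hconj : ∀ y ∈ K, y * g = g * y⁻¹ := by
    intro y hy
    have h1 : g * y ∉ K := fun h => hg ((Subgroup.mul_mem_cancel_right K hy).1 h)
    have h2 := hout _ h1
    have h3 := hout _ hg
    have h4 : g * (y * g * y) = g * g := by
      calc g * (y * g * y) = (g * y) ^ 2 := by rw [pow_two]; group
        _ = z := h2
        _ = g ^ 2 := h3.symm
        _ = g * g := pow_two g
    have h5 := mul_left_cancel h4
    calc y * g = y * g * y * y⁻¹ := by group
      _ = g * y⁻¹ := by rw [h5]
  -- the homomorphism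
  set f0 : ℤ →+ Additive G := zmultiplesHom (Additive G) (Additive.ofMul (x : G)) with hf0
  have hf0' : ∀ m : ℤ, (f0 m).toMul = (x : G) ^ m := by
    intro m
    rw [hf0, zmultiplesHom_apply]
    rfl
  have hf00 : f0 ((2 * N : ℕ) : ℤ) = 0 := by
    apply Additive.toMul.injective
    rw [hf0', zpow_natCast, ← hordx, pow_orderOf_eq_one]
    rfl
  set φ : ZMod (2 * N) →+ Additive G := ZMod.lift (2 * N) ⟨f0, hf00⟩ with hφ
  have hφinj : Function.Injective φ := by
    rw [hφ, ZMod.lift_injective]
    intro m hm
    have h1 : (x : G) ^ m = 1 := by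
      rw [← hf0']
      exact congrArg Additive.toMul hm
    have h2 := orderOf_dvd_iff_zpow_eq_one.2 h1
    rw [hordx] at h2
    exact (ZMod.intCast_zmod_eq_zero_iff_dvd m (2 * N)).2 h2
  have hφN : (φ ((N : ℕ) : ZMod (2 * N))).toMul = z := by
    have : ((N : ℕ) : ZMod (2 * N)) = ((N : ℤ) : ZMod (2 * N)) := by push_cast; rfl
    rw [this, hφ, ZMod.lift_coe]
    change (f0 _).toMul = z
    rw [hf0', zpow_natCast, hxN]
  have hφK : ∀ i, (φ i).toMul ∈ K := by
    intro i
    obtain ⟨m, rfl⟩ := ZMod.intCast_surjective i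
    rw [hφ, ZMod.lift_coe]
    change (f0 _).toMul ∈ K
    rw [hf0']
    exact Subgroup.zpow_mem _ x.2 _
  have hadd : ∀ i j, (φ (i + j)).toMul = (φ i).toMul * (φ j).toMul := by
    intro i j; rw [map_add]; rfl
  have hsub : ∀ i j, (φ (j - i)).toMul = ((φ i).toMul)⁻¹ * (φ j).toMul := by
    intro i j
    rw [sub_eq_neg_add, hadd, map_neg]; rfl
  let F : QuaternionGroup N → G := fun q => match q with
    | QuaternionGroup.a i => (φ i).toMul
    | QuaternionGroup.xa i => g * (φ i).toMul
  have hFa : ∀ i, F (QuaternionGroup.a i) = (φ i).toMul := fun i => rfl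
  have hFx : ∀ i, F (QuaternionGroup.xa i) = g * (φ i).toMul := fun i => rfl
  have hFinj : Function.Injective F := by
    intro u w huw
    cases u with
    | a i =>
      cases w with
      | a j =>
        rw [hFa, hFa] at huw
        rw [hφinj (Additive.toMul.injective huw)]
      | xa j =>
        exfalso
        rw [hFa, hFx] at huw
        apply hg
        have h1 := hφK i
        rw [huw] at h1
        exact (Subgroup.mul_mem_cancel_right K (hφK j)).1 h1
    | xa i =>
      cases w with
      | a j =>
        exfalso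
        rw [hFa, hFx] at huw
        apply hg
        have h1 := hφK j
        rw [← huw] at h1
        exact (Subgroup.mul_mem_cancel_right K (hφK i)).1 h1
      | xa j =>
        rw [hFx, hFx] at huw
        rw [hφinj (Additive.toMul.injective (mul_left_cancel huw))]
  have hFbij : Function.Bijective F := by
    rw [Nat.bijective_iff_injective_and_card]
    refine ⟨hFinj, ?_⟩
    rw [Nat.card_eq_fintype_card, QuaternionGroup.card, ha, hN]
    have : 2 ^ a = 2 ^ 2 * 2 ^ (a - 2) := by rw [← pow_add]; congr 1; omega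
    omega
  let E : QuaternionGroup N ≃* G := MulEquiv.ofBijective (MonoidHom.mk' F (by
    intro u w
    cases u with
    | a i =>
      cases w with
      | a j => rw [QuaternionGroup.a_mul_a, hFa, hFa, hFa, hadd]
      | xa j =>
        rw [QuaternionGroup.a_mul_xa, hFa, hFx, hFx, hsub, ← mul_assoc, ← mul_assoc, ← hconj _ (hφK i)]
    | xa i =>
      cases w with
      | a j => rw [QuaternionGroup.xa_mul_a, hFa, hFx, hFx, hadd, mul_assoc]
      | xa j =>
        rw [QuaternionGroup.xa_mul_xa, hFa, hFx, hFx]
        have h1 : ((N : ℕ) : ZMod (2 * N)) + j - i = ((N : ℕ) : ZMod (2 * N)) + (j - i) := by ring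
        rw [h1, hadd, hφN, hsub]
        have h3 := hout _ hg
        calc z * ((φ i).toMul⁻¹ * (φ j).toMul) = g ^ 2 * ((φ i).toMul⁻¹ * (φ j).toMul) := by rw [h3]
          _ = g * (g * (φ i).toMul⁻¹) * (φ j).toMul := by rw [pow_two]; group
          _ = g * ((φ i).toMul * g) * (φ j).toMul := by rw [hconj _ (hφK i)]
          _ = g * (φ i).toMul * (g * (φ j).toMul) := by group)) hFbij
  exact ⟨a, ha3, ⟨E.symm⟩⟩

end H59.VM
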